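import Pool.Agent.TH934.FT.Defs

/-!
# The width of a convex polygon as a norm, the edges and the ratios side / longest parallel chord
-/

namespace TH934.FT

open Finset

theorem pl_pr_add (u u' z : ℝ × ℝ) : pr (u + u') z = pr u z + pr u' z := by
  simp only [pr, Prod.fst_add, Prod.snd_add]; ring

theorem pl_pr_smul (c : ℝ) (u z : ℝ × ℝ) : pr (c • u) z = c * pr u z := by
  simp only [pr, Prod.smul_fst, Prod.smul_snd, smul_eq_mul]; ring

theorem pl_pr_neg (u z : ℝ × ℝ) : pr (-u) z = -pr u z := by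
  simp only [pr, Prod.fst_neg, Prod.snd_neg]; ring

theorem pl_pr_sub_right (u y z : ℝ × ℝ) : pr u (y - z) = pr u y - pr u z := by
  simp only [pr, Prod.fst_sub, Prod.snd_sub]; ring

theorem pl_pr_smul_right (c : ℝ) (u z : ℝ × ℝ) : pr u (c • z) = c * pr u z := by
  simp only [pr, Prod.smul_fst, Prod.smul_snd, smul_eq_mul]; ring

theorem pl_lin (u : ℝ × ℝ) : IsLinearMap ℝ (pr u) where
  map_add y z := by simp only [pr, Prod.fst_add, Prod.snd_add]; ring
  map_smul c z := by rw [pl_pr_smul_right, smul_eq_mul]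

section

variable {m : ℕ} (v : Fin (m + 1) → ℝ × ℝ)

theorem pl_le (u : ℝ × ℝ) (i : Fin (m + 1)) : pr u (v i) ≤ Mx v u :=
  le_ciSup (f := fun i => pr u (v i)) (Set.finite_range _).bddAbove i

theorem pl_ex (u : ℝ × ℝ) : ∃ i, pr u (v i) = Mx v u :=
  exists_eq_ciSup_of_finite (f := fun i => pr u (v i))

theorem pl_sub (u u' : ℝ × ℝ) : Mx v (u + u') ≤ Mx v u + Mx v u' := by
  refine ciSup_le fun i => ?_
  rw [pl_pr_add]
  exact add_le_add (pl_le v u i) (pl_le v u' i)

theorem pl_hom (c : ℝ) (hc : 0 ≤ c) (u : ℝ × ℝ) : Mx v (c • u) = c * Mx v u := by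
  unfold Mx
  rw [Real.mul_iSup_of_nonneg hc]
  simp only [pl_pr_smul]

theorem pl_Whom (c : ℝ) (u : ℝ × ℝ) : Wd v (c • u) = |c| * Wd v u := by
  unfold Wd
  rcases le_total 0 c with hc | hc
  · rw [← smul_neg, pl_hom v c hc, pl_hom v c hc, abs_of_nonneg hc]
    ring
  · have e1 : c • u = (-c) • (-u) := by rw [smul_neg, neg_smul, neg_neg]
    have e2 : -(c • u) = (-c) • u := by rw [neg_smul]
    rw [e2, pl_hom v (-c) (by linarith) u, e1, pl_hom v (-c) (by linarith) (-u), abs_of_nonpos hc]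
    ring

theorem pl_diff (u : ℝ × ℝ) (i j : Fin (m + 1)) : pr u (v i) - pr u (v j) ≤ Wd v u := by
  have h1 := pl_le v u i
  have h2 := pl_le v (-u) j
  rw [pl_pr_neg] at h2
  unfold Wd
  linarith

theorem pl_nonneg (u : ℝ × ℝ) : 0 ≤ Wd v u := by
  have := pl_diff v u 0 0
  linarith

theorem pl_third (hm : 2 ≤ m) (i k : Fin (m + 1)) : ∃ j, j ≠ i ∧ j ≠ k := by
  by_contra h
  push Not at h
  have h1 : ({i, k} : Finset (Fin (m + 1))) = univ := by
    rw [Finset.eq_univ_iff_forall]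
    intro j
    rw [Finset.mem_insert, Finset.mem_singleton]
    by_cases hj : j = i
    · exact Or.inl hj
    · exact Or.inr (h j hj)
  have h2 := congrArg Finset.card h1
  rw [Finset.card_univ, Fintype.card_fin] at h2
  have h3 : ({i, k} : Finset (Fin (m + 1))).card ≤ 2 := Finset.card_le_two
  omega

theorem pl_cyc (x : Fin (m + 1) → ℝ) (a b : Fin (m + 1)) :
    2 * (x a - x b) ≤ ∑ i, |x (i + 1) - x i| := by
  have h1 : ∑ i, |x (i + 1) - x i| = ∑ i, |x (b + i + 1) - x (b + i)| :=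
    (Equiv.sum_comp (Equiv.addLeft b) fun i => |x (i + 1) - x i|).symm
  obtain ⟨y, hy⟩ : ∃ y : ℕ → ℝ, ∀ k : ℕ, y k = x (b + Fin.ofNat (m + 1) k) := ⟨_, fun _ => rfl⟩
  have hself : ∀ i : Fin (m + 1), Fin.ofNat (m + 1) (i : ℕ) = i := fun i =>
    Fin.ext (Nat.mod_eq_of_lt i.is_lt)
  have hsucc : ∀ i : Fin (m + 1), Fin.ofNat (m + 1) ((i : ℕ) + 1) = i + 1 := fun i => by
    apply Fin.ext
    rw [Fin.val_add, Fin.val_one']
    change ((i : ℕ) + 1) % (m + 1) = _
    rw [Nat.add_mod_mod]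
  have h2 : ∑ i, |x (b + i + 1) - x (b + i)| = ∑ k ∈ range (m + 1), dist (y k) (y (k + 1)) := by
    rw [Finset.sum_range]
    apply Finset.sum_congr rfl
    intro i _
    rw [hy, hy, Real.dist_eq, abs_sub_comm, hself, hsucc, add_assoc]
  have h0 : y 0 = x b := by
    rw [hy]
    have : Fin.ofNat (m + 1) 0 = 0 := Fin.ext (Nat.zero_mod _)
    rw [this, add_zero]
  have hl : y (m + 1) = x b := by
    rw [hy]
    have : Fin.ofNat (m + 1) (m + 1) = 0 := Fin.ext (Nat.mod_self _)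
    rw [this, add_zero]
  obtain ⟨k, hk, hka⟩ : ∃ k : ℕ, k ≤ m + 1 ∧ y k = x a := by
    refine ⟨((a - b : Fin (m + 1)) : ℕ), (Fin.is_lt _).le, ?_⟩
    rw [hy, hself]
    congr 1
    abel
  have h3 := dist_le_Ico_sum_dist y (Nat.zero_le k)
  have h4 := dist_le_Ico_sum_dist y hk
  rw [h0, hka, Real.dist_eq] at h3
  rw [hl, hka, Real.dist_eq] at h4
  have h5 := Finset.sum_Ico_consecutive (fun k => dist (y k) (y (k + 1))) (Nat.zero_le k) hk
  rw [h1, h2, Finset.range_eq_Ico, ← h5]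
  have h6 := neg_abs_le (x b - x a)
  have h7 := le_abs_self (x a - x b)
  linarith

theorem pl_hull (u z : ℝ × ℝ) (hz : z ∈ convexHull ℝ (Set.range v)) : pr u z ≤ Mx v u := by
  have h1 : convexHull ℝ (Set.range v) ⊆ {w | pr u w ≤ Mx v u} := by
    apply convexHull_min
    · rintro _ ⟨i, rfl⟩
      exact pl_le v u i
    · exact convex_halfSpace_le (pl_lin u) _
  exact h1 hz

theorem pl_hull2 (u y z : ℝ × ℝ) (hy : y ∈ convexHull ℝ (Set.range v))
    (hz : z ∈ convexHull ℝ (Set.range v)) : |pr u (y - z)| ≤ Wd v u := by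
  rw [pl_pr_sub_right]
  have h1 := pl_hull v u y hy
  have h2 := pl_hull v u z hz
  have h3 := pl_hull v (-u) y hy
  have h4 := pl_hull v (-u) z hz
  rw [pl_pr_neg] at h3 h4
  unfold Wd
  rw [abs_le]
  constructor <;> linarith

end

theorem sys_of_polygon (n : ℕ) (hn : 3 ≤ n) (v : Fin n → ℝ × ℝ)
    (hv : ∀ i j : Fin n, j ≠ i → j ≠ finRotate n i →
        0 < ((v (finRotate n i)).1 - (v i).1) * ((v j).2 - (v i).2)
            - ((v (finRotate n i)).2 - (v i).2) * ((v j).1 - (v i).1))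
    (b : Fin n → ℝ)
    (hb : ∀ i : Fin n, b i = sSup {r : ℝ | ∃ x ∈ convexHull ℝ (Set.range v),
            ∃ y ∈ convexHull ℝ (Set.range v), ∃ c : ℝ,
              y - x = c • (v (finRotate n i) - v i) ∧ r = dist x y}) :
    Sys (Wd v) (fun i => v (finRotate n i) - v i)
      (fun i => dist (v i) (v (finRotate n i)) / b i) := by
  obtain ⟨m, rfl⟩ : ∃ m, n = m + 1 := ⟨n - 1, by omega⟩
  have hm : 2 ≤ m := by omega
  have hene : ∀ i, v (finRotate (m + 1) i) - v i ≠ 0 := by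
    intro i h0
    obtain ⟨j, hj1, hj2⟩ := pl_third hm i (finRotate (m + 1) i)
    have h1 := hv i j hj1 hj2
    have e1 : (v (finRotate (m + 1) i)).1 - (v i).1 = 0 := by
      have := congrArg Prod.fst h0
      simpa using this
    have e2 : (v (finRotate (m + 1) i)).2 - (v i).2 = 0 := by
      have := congrArg Prod.snd h0
      simpa using this
    rw [e1, e2] at h1
    simp at h1
  refine ⟨?_, pl_Whom v, ?_, ?_, ?_, hene⟩
  · intro u u'
    unfold Wd
    have h1 := pl_sub v u u'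
    have h2 := pl_sub v (-u) (-u')
    have e : -(u + u') = -u + -u' := by rw [neg_add]
    rw [e]
    linarith
  · intro u hu
    by_contra h
    push Not at h
    have h0 : ∀ i j, pr u (v i) ≤ pr u (v j) := fun i j => by
      have := pl_diff v u i j
      linarith
    obtain ⟨j, hj1, hj2⟩ := pl_third hm 0 (finRotate (m + 1) 0)
    have h1 := hv 0 j hj1 hj2
    have h2 := le_antisymm (h0 (finRotate (m + 1) 0) 0) (h0 0 (finRotate (m + 1) 0))
    have h3 := le_antisymm (h0 j 0) (h0 0 j)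
    unfold pr at h2 h3
    obtain ⟨A, hA⟩ : ∃ A, A = (v (finRotate (m + 1) 0)).1 - (v 0).1 := ⟨_, rfl⟩
    obtain ⟨B, hB⟩ : ∃ B, B = (v (finRotate (m + 1) 0)).2 - (v 0).2 := ⟨_, rfl⟩
    obtain ⟨P, hP⟩ : ∃ P, P = (v j).1 - (v 0).1 := ⟨_, rfl⟩
    obtain ⟨R, hR⟩ : ∃ R, R = (v j).2 - (v 0).2 := ⟨_, rfl⟩
    rw [← hA, ← hB, ← hP, ← hR] at h1
    have k1 : u.1 * A + u.2 * B = 0 := by rw [hA, hB]; linarith
    have k2 : u.1 * P + u.2 * R = 0 := by rw [hP, hR]; linarith
    have k3 : u.1 * (A * R - B * P) = 0 := by linear_combination R * k1 - B * k2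
    have k4 : u.2 * (A * R - B * P) = 0 := by linear_combination A * k2 - P * k1
    have k5 := (mul_eq_zero.1 k3).resolve_right h1.ne'
    have k6 := (mul_eq_zero.1 k4).resolve_right h1.ne'
    exact hu (Prod.ext k5 k6)
  · intro u
    obtain ⟨a, ha⟩ := pl_ex v u
    obtain ⟨c, hc⟩ := pl_ex v (-u)
    rw [pl_pr_neg] at hc
    have h1 := pl_cyc (fun i => pr u (v i)) a c
    have h2 : ∑ i, |pr u (v (finRotate (m + 1) i) - v i)| =
        ∑ i, |pr u (v (i + 1)) - pr u (v i)| := by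
      apply Finset.sum_congr rfl
      intro i _
      rw [pl_pr_sub_right, finRotate_apply]
    rw [h2]
    unfold Wd
    rw [← ha, ← hc]
    linarith
  · intro i u
    obtain ⟨e, he⟩ : ∃ e, e = v (finRotate (m + 1) i) - v i := ⟨_, rfl⟩
    have hene' : e ≠ 0 := he ▸ hene i
    have hd : dist (v i) (v (finRotate (m + 1) i)) = ‖e‖ := by
      rw [dist_comm, dist_eq_norm, he]
    have hpos : 0 < ‖e‖ := norm_pos_iff.2 hene'
    obtain ⟨S, hS⟩ : ∃ S, S = {r : ℝ | ∃ x ∈ convexHull ℝ (Set.range v),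
            ∃ y ∈ convexHull ℝ (Set.range v), ∃ c : ℝ,
              y - x = c • (v (finRotate (m + 1) i) - v i) ∧ r = dist x y} := ⟨_, rfl⟩
    have hbi : b i = sSup S := by rw [hb i, hS]
    have key : ∀ w : ℝ × ℝ, ∀ r ∈ S, r * |pr w e| ≤ ‖e‖ * Wd v w := by
      intro w r hr
      rw [hS] at hr
      obtain ⟨x, hx, y, hy, c, hc, rfl⟩ := hr
      have h1 := pl_hull2 v w y x hy hx
      rw [hc, ← he, pl_pr_smul_right, abs_mul] at h1
      have h2 : dist x y = |c| * ‖e‖ := by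
        rw [dist_comm, dist_eq_norm, hc, ← he, norm_smul, Real.norm_eq_abs]
      rw [h2]
      have h3 := mul_le_mul_of_nonneg_left h1 hpos.le
      calc |c| * ‖e‖ * |pr w e| = ‖e‖ * (|c| * |pr w e|) := by ring
        _ ≤ _ := h3
    have hee : 0 < pr e e := by
      unfold pr
      by_contra h
      push Not at h
      have a1 := mul_self_nonneg e.1
      have a2 := mul_self_nonneg e.2
      have a3 : e.1 = 0 := mul_self_eq_zero.1 (by linarith)
      have a4 : e.2 = 0 := mul_self_eq_zero.1 (by linarith)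
      exact hene' (Prod.ext a3 a4)
    have hbdd : BddAbove S := by
      refine ⟨‖e‖ * Wd v e / pr e e, fun r hr => ?_⟩
      rw [le_div_iff₀ hee]
      have := key e r hr
      rwa [abs_of_pos hee] at this
    have hmem : ‖e‖ ∈ S := by
      rw [hS]
      refine ⟨v i, subset_convexHull ℝ _ ⟨i, rfl⟩, v (finRotate (m + 1) i),
        subset_convexHull ℝ _ ⟨_, rfl⟩, 1, by rw [one_smul], hd.symm⟩
    have hb0 : ‖e‖ ≤ b i := by rw [hbi]; exact le_csSup hbdd hmem
    have hb1 : 0 < b i := hpos.trans_le hb0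
    have hW := pl_nonneg v u
    have hfin : b i * |pr u e| ≤ ‖e‖ * Wd v u := by
      by_cases h0 : pr u e = 0
      · rw [h0, abs_zero, mul_zero]
        exact mul_nonneg hpos.le hW
      · have h1 : 0 < |pr u e| := abs_pos.2 h0
        rw [hbi, ← le_div_iff₀ h1]
        refine csSup_le ⟨_, hmem⟩ fun r hr => ?_
        rw [le_div_iff₀ h1]
        exact key u r hr
    change |pr u (v (finRotate (m + 1) i) - v i)| ≤ dist (v i) (v (finRotate (m + 1) i)) / b i * Wd v u
    rw [← he, hd, div_mul_eq_mul_div, le_div_iff₀ hb1]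
    linarith

end TH934.FT
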