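import Pool.Agent.TH934.FT.Defs

/-!
# A polygon whose width function is a hexagonal norm is a snub triangle
-/

namespace TH934.FT

open Finset

lemma snub_key {α β dx dy : ℝ} (h1 : -1 ≤ dx) (h2 : dx ≤ 1) (h3 : -1 ≤ dy) (h4 : dy ≤ 1)
    (h5 : -1 ≤ dx + dy) (h6 : dx + dy ≤ 1) :
    α * dx + β * dy ≤ (|α| + |β| + |α - β|) / 2 := by
  rcases abs_cases α with ⟨ha, ha'⟩ | ⟨ha, ha'⟩ <;>
  rcases abs_cases β with ⟨hb, hb'⟩ | ⟨hb, hb'⟩ <;>
  rcases abs_cases (α - β) with ⟨hc, hc'⟩ | ⟨hc, hc'⟩ <;>
  rw [ha, hb, hc] <;>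
  nlinarith

/-- a linear functional on the hexagon is at least one of its values at the six points -/
lemma snub_low {α β x y s : ℝ} (x0 : 0 ≤ x) (x1 : x ≤ 1) (y0 : 0 ≤ y) (y1 : y ≤ 1)
    (s0 : s ≤ x + y) (s1 : x + y ≤ 1 + s)
    (a1 : α * x + β * y < α * s) (a2 : α * x + β * y < β * s)
    (a3 : α * x + β * y < α) (a4 : α * x + β * y < α + β * s)
    (a5 : α * x + β * y < β) (a6 : α * x + β * y < α * s + β) : False := by
  rcases le_total 0 α with ha | ha <;> rcases le_total 0 β with hb | hb <;>
  rcases le_total α β with hc | hc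
  · nlinarith [mul_nonneg (sub_nonneg.2 hc) y0, mul_nonneg ha (sub_nonneg.2 s0)]
  · nlinarith [mul_nonneg (sub_nonneg.2 hc) x0, mul_nonneg hb (sub_nonneg.2 s0)]
  · nlinarith
  · nlinarith [mul_nonneg ha x0, mul_nonneg (neg_nonneg.2 hb) (sub_nonneg.2 y1)]
  · nlinarith [mul_nonneg hb y0, mul_nonneg (neg_nonneg.2 ha) (sub_nonneg.2 x1)]
  · nlinarith
  · nlinarith [mul_nonneg (sub_nonneg.2 hc) (sub_nonneg.2 x1),
      mul_nonneg (neg_nonneg.2 hb) (sub_nonneg.2 s1)]
  · nlinarith [mul_nonneg (sub_nonneg.2 hc) (sub_nonneg.2 y1),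
      mul_nonneg (neg_nonneg.2 ha) (sub_nonneg.2 s1)]

theorem snub_of_width (n : ℕ) (hn : 0 < n) (v : Fin n → ℝ × ℝ) (f g : ℝ × ℝ)
    (hfg : f.1 * g.2 - f.2 * g.1 ≠ 0)
    (hW : ∀ α β : ℝ, Wd v (α • f + β • g) = (|α| + |β| + |α - β|) / 2) :
    ∃ A B C : ℝ × ℝ, AffineIndependent ℝ ![A, B, C] ∧
            ∃ t : ℝ, 0 ≤ t ∧ t ≤ 1 / 2 ∧
              convexHull ℝ (Set.range v) =
                convexHull ℝ ({A + t • (B - A), A + t • (C - A),
                  B + t • (A - B), B + t • (C - B),
                  C + t • (A - C), C + t • (B - C)} : Set (ℝ × ℝ)) := by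
  have : Nonempty (Fin n) := ⟨⟨0, hn⟩⟩
  have hle : ∀ u i, pr u (v i) ≤ Mx v u := fun u i =>
    le_ciSup (f := fun i => pr u (v i)) (Set.finite_range _).bddAbove i
  have hat : ∀ u, ∃ i, pr u (v i) = Mx v u := fun u =>
    exists_eq_ciSup_of_finite (f := fun i => pr u (v i))
  have prneg : ∀ u z, pr (-u) z = - pr u z := by
    intro u z; simp only [pr, Prod.fst_neg, Prod.snd_neg]; ring
  have pradd : ∀ u u' z, pr (u + u') z = pr u z + pr u' z := by
    intro u u' z; simp only [pr, Prod.fst_add, Prod.snd_add]; ring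
  have prlin : ∀ (α β : ℝ) z, pr (α • f + β • g) z = α * pr f z + β * pr g z := by
    intro α β z
    simp only [pr, Prod.fst_add, Prod.snd_add, Prod.smul_fst, Prod.smul_snd, smul_eq_mul]; ring
  have hge : ∀ u i, - Mx v (-u) ≤ pr u (v i) := by
    intro u i
    have := hle (-u) i
    rw [prneg] at this
    linarith
  have hWf : Mx v f + Mx v (-f) = 1 := by
    have := hW 1 0
    simp only [one_smul, zero_smul, add_zero, Wd, abs_one, abs_zero, sub_zero] at this
    linarith
  have hWg : Mx v g + Mx v (-g) = 1 := by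
    have := hW 0 1
    simp only [one_smul, zero_smul, zero_add, Wd, abs_one, abs_zero, zero_sub, abs_neg] at this
    linarith
  have hWh : Mx v (f + g) + Mx v (-(f + g)) = 1 := by
    have := hW 1 1
    simp only [one_smul, Wd, abs_one, sub_self, abs_zero] at this
    linarith
  set m1 : ℝ := - Mx v (-f) with hm1
  set m2 : ℝ := - Mx v (-g) with hm2
  set m3 : ℝ := - Mx v (-(f + g)) with hm3
  set s : ℝ := m3 - m1 - m2 with hs
  have F0 : ∀ i, m1 ≤ pr f (v i) := fun i => hge f i
  have F1 : ∀ i, pr f (v i) ≤ m1 + 1 := fun i => by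
    have := hle f i
    linarith
  have G0 : ∀ i, m2 ≤ pr g (v i) := fun i => hge g i
  have G1 : ∀ i, pr g (v i) ≤ m2 + 1 := fun i => by
    have := hle g i
    linarith
  have H0 : ∀ i, m3 ≤ pr f (v i) + pr g (v i) := fun i => by
    have := hge (f + g) i
    rw [pradd] at this
    exact this
  have H1 : ∀ i, pr f (v i) + pr g (v i) ≤ m3 + 1 := fun i => by
    have := hle (f + g) i
    rw [pradd] at this
    linarith
  have s0 : 0 ≤ s := by
    obtain ⟨i, hi⟩ := hat (-(f + g))
    rw [prneg, pradd] at hi
    have := F0 i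
    have := G0 i
    linarith
  have s1 : s ≤ 1 := by
    obtain ⟨i, hi⟩ := hat (f + g)
    rw [pradd] at hi
    have := F1 i
    have := G1 i
    linarith
  set D : ℝ := f.1 * g.2 - f.2 * g.1 with hD
  set p : ℝ × ℝ := (g.2 / D, - g.1 / D) with hp
  set q : ℝ × ℝ := (- f.2 / D, f.1 / D) with hq
  have Fp : pr f p = 1 := by
    simp only [pr, hp]; field_simp; rw [hD]; ring
  have Gp : pr g p = 0 := by
    simp only [pr, hp]; field_simp; ring
  have Fq : pr f q = 0 := by
    simp only [pr, hq]; field_simp; ring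
  have Gq : pr g q = 1 := by
    simp only [pr, hq]; field_simp; rw [hD]; ring
  have przadd : ∀ u z z', pr u (z + z') = pr u z + pr u z' := by
    intro u z z'; simp only [pr, Prod.fst_add, Prod.snd_add]; ring
  have przsmul : ∀ (c : ℝ) u z, pr u (c • z) = c * pr u z := by
    intro c u z; simp only [pr, Prod.smul_fst, Prod.smul_snd, smul_eq_mul]; ring
  set P : ℝ → ℝ → ℝ × ℝ := fun x y => (m1 + x) • p + (m2 + y) • q with hP
  have FP : ∀ x y, pr f (P x y) = m1 + x := by
    intro x y; simp only [hP, przadd, przsmul, Fp, Fq]; ring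
  have GP : ∀ x y, pr g (P x y) = m2 + y := by
    intro x y; simp only [hP, przadd, przsmul, Gp, Gq]; ring
  have rep : ∀ z : ℝ × ℝ, z = pr f z • p + pr g z • q := by
    intro z
    ext
    · simp only [pr, hp, hq, Prod.fst_add, Prod.smul_fst, smul_eq_mul]
      field_simp; rw [hD]; ring
    · simp only [pr, hp, hq, Prod.snd_add, Prod.smul_snd, smul_eq_mul]
      field_simp; rw [hD]; ring
  have s2 : 0 < 1 + s := by linarith
  have hts : s / (1 + s) * (1 + s) = s := by field_simp
  refine ⟨P 0 0, P (1 + s) 0, P 0 (1 + s), ?_, s / (1 + s), by positivity, ?_, ?_⟩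
  · rw [affineIndependent_iff_not_collinear_set,
      collinear_iff_of_mem (p₀ := P 0 0) (by simp)]
    rintro ⟨w, hw⟩
    obtain ⟨r1, h1⟩ := hw (P (1 + s) 0) (by simp)
    obtain ⟨r2, h2⟩ := hw (P 0 (1 + s)) (by simp)
    rw [vadd_eq_add] at h1 h2
    have e1 := congrArg (pr f) h1
    have e2 := congrArg (pr g) h1
    have e3 := congrArg (pr f) h2
    have e4 := congrArg (pr g) h2
    rw [FP, przadd, przsmul, FP] at e1 e3
    rw [GP, przadd, przsmul, GP] at e2 e4
    have k1 : r1 * pr f w = 1 + s := by linarith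
    have k2 : r1 * pr g w = 0 := by linarith
    have k3 : r2 * pr f w = 0 := by linarith
    have k4 : r2 * pr g w = 1 + s := by linarith
    have : (1 + s) * (1 + s) = 0 := by
      calc (1 + s) * (1 + s) = (r1 * pr f w) * (r2 * pr g w) := by rw [k1, k4]
        _ = (r1 * pr g w) * (r2 * pr f w) := by ring
        _ = 0 := by rw [k2]; ring
    nlinarith
  · rw [div_le_iff₀ s2]; linarith
  · have q1 : P 0 0 + (s / (1 + s)) • (P (1 + s) 0 - P 0 0) = P s 0 := by
      have : P (1 + s) 0 - P 0 0 = (1 + s) • p := by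
        simp only [hP]; module
      rw [this, smul_smul, hts]; simp only [hP]; module
    have q2 : P 0 0 + (s / (1 + s)) • (P 0 (1 + s) - P 0 0) = P 0 s := by
      have : P 0 (1 + s) - P 0 0 = (1 + s) • q := by
        simp only [hP]; module
      rw [this, smul_smul, hts]; simp only [hP]; module
    have q3 : P (1 + s) 0 + (s / (1 + s)) • (P 0 0 - P (1 + s) 0) = P 1 0 := by
      have : P 0 0 - P (1 + s) 0 = (1 + s) • (-p) := by
        simp only [hP]; module
      rw [this, smul_smul, hts]; simp only [hP]; module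
    have q4 : P (1 + s) 0 + (s / (1 + s)) • (P 0 (1 + s) - P (1 + s) 0) = P 1 s := by
      have : P 0 (1 + s) - P (1 + s) 0 = (1 + s) • (q - p) := by
        simp only [hP]; module
      rw [this, smul_smul, hts]; simp only [hP]; module
    have q5 : P 0 (1 + s) + (s / (1 + s)) • (P 0 0 - P 0 (1 + s)) = P 0 1 := by
      have : P 0 0 - P 0 (1 + s) = (1 + s) • (-q) := by
        simp only [hP]; module
      rw [this, smul_smul, hts]; simp only [hP]; module
    have q6 : P 0 (1 + s) + (s / (1 + s)) • (P (1 + s) 0 - P 0 (1 + s)) = P s 1 := by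
      have : P (1 + s) 0 - P 0 (1 + s) = (1 + s) • (p - q) := by
        simp only [hP]; module
      rw [this, smul_smul, hts]; simp only [hP]; module
    rw [q1, q2, q3, q4, q5, q6]
    set S : Set (ℝ × ℝ) := {P s 0, P 0 s, P 1 0, P 1 s, P 0 1, P s 1} with hS
    have hSfin : S.Finite := by
      rw [hS]; exact Set.toFinite _
    apply Set.Subset.antisymm
    · apply convexHull_min _ (convex_convexHull ℝ _)
      rintro z ⟨i, rfl⟩
      by_contra hz
      obtain ⟨l, u, h1, h2⟩ := geometric_hahn_banach_point_closed (convex_convexHull ℝ S)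
        (hSfin.isClosed_convexHull ℝ) hz
      have hl : ∀ z, l z = l p * pr f z + l q * pr g z := by
        intro z
        conv_lhs => rw [rep z]
        rw [map_add, map_smul, map_smul, smul_eq_mul, smul_eq_mul]; ring
      have hmem : ∀ x y, P x y ∈ S → u < l p * (m1 + x) + l q * (m2 + y) := by
        intro x y h
        have := h2 _ (subset_convexHull ℝ S h)
        rw [hl, FP, GP] at this
        exact this
      rw [hl] at h1
      have a1 := hmem s 0 (by simp [hS])
      have a2 := hmem 0 s (by simp [hS])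
      have a3 := hmem 1 0 (by simp [hS])
      have a4 := hmem 1 s (by simp [hS])
      have a5 := hmem 0 1 (by simp [hS])
      have a6 := hmem s 1 (by simp [hS])
      have f0 := F0 i
      have f1 := F1 i
      have g0 := G0 i
      have g1 := G1 i
      have h0 := H0 i
      have h1' := H1 i
      exact snub_low (α := l p) (β := l q) (x := pr f (v i) - m1) (y := pr g (v i) - m2) (s := s)
        (by linarith) (by linarith) (by linarith) (by linarith) (by linarith) (by linarith)
        (by linarith) (by linarith) (by linarith) (by linarith) (by linarith) (by linarith)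
    · apply convexHull_min _ (convex_convexHull ℝ _)
      intro z0 hz0
      by_contra hz
      obtain ⟨l, u, h1, h2⟩ := geometric_hahn_banach_point_closed
        (convex_convexHull ℝ (Set.range v)) ((Set.finite_range v).isClosed_convexHull ℝ) hz
      have hl : ∀ z, l z = pr (l p • f + l q • g) z := by
        intro z
        rw [prlin]
        conv_lhs => rw [rep z]
        rw [map_add, map_smul, map_smul, smul_eq_mul, smul_eq_mul]; ring
      have hw := hW (l p) (l q)
      rw [Wd] at hw
      obtain ⟨i, hi⟩ := hat (-(l p • f + l q • g))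
      obtain ⟨j, hj⟩ := hat (l p • f + l q • g)
      rw [prneg] at hi
      have hui : u < pr (l p • f + l q • g) (v i) := by
        rw [← hl]
        exact h2 _ (subset_convexHull ℝ _ ⟨i, rfl⟩)
      have hz0' : pr (l p • f + l q • g) z0 < u := by
        rw [← hl]; exact h1
      have f0 := F0 j
      have f1 := F1 j
      have g0 := G0 j
      have g1 := G1 j
      have h0 := H0 j
      have h1' := H1 j
      have main : ∀ x y : ℝ, 0 ≤ x → x ≤ 1 → 0 ≤ y → y ≤ 1 → s ≤ x + y → x + y ≤ 1 + s →
          z0 = P x y → False := by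
        intro x y x0 x1 y0 y1 z1 z2 hzz
        have := snub_key (α := l p) (β := l q) (dx := pr f (v j) - (m1 + x))
          (dy := pr g (v j) - (m2 + y)) (by linarith) (by linarith) (by linarith) (by linarith)
          (by linarith) (by linarith)
        rw [prlin] at hj hz0'
        rw [hzz, FP, GP] at hz0'
        nlinarith
      rw [hS] at hz0
      simp only [Set.mem_insert_iff, Set.mem_singleton_iff] at hz0
      rcases hz0 with h | h | h | h | h | h
      · exact main s 0 s0 s1 le_rfl zero_le_one (by linarith) (by linarith) h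
      · exact main 0 s le_rfl zero_le_one s0 s1 (by linarith) (by linarith) h
      · exact main 1 0 zero_le_one le_rfl le_rfl zero_le_one (by linarith) (by linarith) h
      · exact main 1 s zero_le_one le_rfl s0 s1 (by linarith) (by linarith) h
      · exact main 0 1 le_rfl zero_le_one zero_le_one le_rfl (by linarith) (by linarith) h
      · exact main s 1 s0 s1 zero_le_one le_rfl (by linarith) (by linarith) h

end TH934.FT
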