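import Mathlib

/-!
# Side to longest parallel chord: definitions

`pr u z` is the value at `z` of the linear functional with coefficients `u`; `Wd v u` is the width
of the polygon with vertices `v i` with respect to this functional.
-/

namespace TH934.FT

/-- the value at `z` of the functional `u` -/
def pr (u z : ℝ × ℝ) : ℝ := u.1 * z.1 + u.2 * z.2

/-- the support function of the polygon -/
noncomputable def Mx {n : ℕ} (v : Fin n → ℝ × ℝ) (u : ℝ × ℝ) : ℝ := ⨆ i, pr u (v i)

/-- the width function of the polygon -/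
noncomputable def Wd {n : ℕ} (v : Fin n → ℝ × ℝ) (u : ℝ × ℝ) : ℝ := Mx v u + Mx v (-u)

/-- the data used in the proof: `W` is a norm (the width), `e` the edges, `N` the ratios
side / longest parallel chord -/
structure Sys {ι : Type} [Fintype ι] (W : ℝ × ℝ → ℝ) (e : ι → ℝ × ℝ) (N : ι → ℝ) : Prop where
  sub : ∀ u u', W (u + u') ≤ W u + W u'
  hom : ∀ (c : ℝ) u, W (c • u) = |c| * W u
  pos : ∀ u, u ≠ 0 → 0 < W u
  tri : ∀ u, 2 * W u ≤ ∑ i, |pr u (e i)|
  gauge : ∀ i u, |pr u (e i)| ≤ N i * W u
  e_ne : ∀ i, e i ≠ 0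

end TH934.FT
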