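import Pool.Agent.TH934.FT.Defs

/-! In any norm on the plane a unit vector is a side of an affinely regular hexagon. -/

set_option autoImplicit false

namespace TH934.FT

open Finset

theorem exists_hexagon {ι : Type} [Fintype ι] {W : ℝ × ℝ → ℝ} {e : ι → ℝ × ℝ} {N : ι → ℝ}
    (h : Sys W e N) (f : ℝ × ℝ) (hf : W f = 1) : ∃ g, W g = 1 ∧ W (f + g) = 1 := by
  have h0 : W 0 = 0 := by
    have := h.hom 0 0
    rw [zero_smul, abs_zero, zero_mul] at this
    exact this
  have hneg : ∀ u, W (-u) = W u := by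
    intro u
    have := h.hom (-1) u
    rw [neg_one_smul, abs_neg, abs_one, one_mul] at this
    exact this
  have hnn : ∀ u, 0 ≤ W u := by
    intro u
    by_cases hu : u = 0
    · rw [hu, h0]
    · exact (h.pos u hu).le
  have hb : ∀ u : ℝ × ℝ, W u ≤ |u.1| * W (1, 0) + |u.2| * W (0, 1) := by
    intro u
    have e1 : u = u.1 • ((1 : ℝ), (0 : ℝ)) + u.2 • ((0 : ℝ), (1 : ℝ)) := by
      ext <;> simp
    calc W u = W (u.1 • ((1 : ℝ), (0 : ℝ)) + u.2 • ((0 : ℝ), (1 : ℝ))) := by rw [← e1]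
      _ ≤ W (u.1 • ((1 : ℝ), (0 : ℝ))) + W (u.2 • ((0 : ℝ), (1 : ℝ))) := h.sub _ _
      _ = |u.1| * W (1, 0) + |u.2| * W (0, 1) := by rw [h.hom, h.hom]
  have hcont : Continuous W := by
    have hK : 0 ≤ W (1, 0) + W (0, 1) := add_nonneg (hnn _) (hnn _)
    have hd : ∀ u v : ℝ × ℝ, W u - W v ≤ (W (1, 0) + W (0, 1)) * dist u v := by
      intro u v
      have e1 : W u ≤ W (u - v) + W v := by
        have := h.sub (u - v) v
        rwa [sub_add_cancel] at this
      have e2 := hb (u - v)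
      have e3 : |(u - v).1| ≤ dist u v := by
        rw [Prod.dist_eq]
        exact le_max_left _ _
      have e4 : |(u - v).2| ≤ dist u v := by
        rw [Prod.dist_eq]
        exact le_max_right _ _
      have e5 := mul_le_mul_of_nonneg_right e3 (hnn (1, 0))
      have e6 := mul_le_mul_of_nonneg_right e4 (hnn (0, 1))
      linarith
    refine LipschitzWith.continuous (K := ⟨W (1, 0) + W (0, 1), hK⟩)
      (LipschitzWith.of_dist_le_mul fun u v => ?_)
    rw [Real.dist_eq, abs_le]
    have e1 := hd u v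
    have e2 := hd v u
    rw [dist_comm v u] at e2
    refine ⟨?_, ?_⟩
    · change -((W (1, 0) + W (0, 1)) * dist u v) ≤ W u - W v
      linarith
    · exact e1
  -- the rotating vector
  set G : ℝ → ℝ × ℝ := fun θ => (Real.cos θ * f.1 - Real.sin θ * f.2,
    Real.cos θ * f.2 + Real.sin θ * f.1) with hG
  have hGc : Continuous G := by
    rw [hG]
    fun_prop
  have hfne : f ≠ 0 := by
    rintro rfl
    rw [h0] at hf
    exact zero_ne_one hf
  have hGne : ∀ θ, G θ ≠ 0 := by
    intro θ hθ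
    apply hfne
    have e1 : Real.cos θ * f.1 - Real.sin θ * f.2 = 0 := congrArg Prod.fst hθ
    have e2 : Real.cos θ * f.2 + Real.sin θ * f.1 = 0 := congrArg Prod.snd hθ
    have e3 := Real.sin_sq_add_cos_sq θ
    have e4 : f.1 = 0 := by
      have : f.1 = (Real.sin θ ^ 2 + Real.cos θ ^ 2) * f.1 := by rw [e3, one_mul]
      rw [this]
      linear_combination Real.cos θ * e1 + Real.sin θ * e2
    have e5 : f.2 = 0 := by
      have : f.2 = (Real.sin θ ^ 2 + Real.cos θ ^ 2) * f.2 := by rw [e3, one_mul]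
      rw [this]
      linear_combination Real.cos θ * e2 - Real.sin θ * e1
    exact Prod.ext e4 e5
  have hWG : ∀ θ, W (G θ) ≠ 0 := fun θ => (h.pos _ (hGne θ)).ne'
  set g : ℝ → ℝ × ℝ := fun θ => (W (G θ))⁻¹ • G θ with hg
  have hgc : Continuous g := by
    rw [hg]
    exact ((hcont.comp hGc).inv₀ hWG).smul hGc
  have hg1 : ∀ θ, W (g θ) = 1 := by
    intro θ
    rw [hg]
    simp only
    rw [h.hom, abs_inv, abs_of_pos (h.pos _ (hGne θ)), inv_mul_cancel₀ (hWG θ)]
  have hG0 : G 0 = f := by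
    rw [hG]
    simp
  have hGpi : G Real.pi = -f := by
    rw [hG]
    ext <;> simp
  have hg0 : g 0 = f := by
    rw [hg]
    simp only
    rw [hG0, hf, inv_one, one_smul]
  have hgpi : g Real.pi = -f := by
    rw [hg]
    simp only
    rw [hGpi, hneg, hf, inv_one, one_smul]
  have hφc : Continuous fun θ => W (f + g θ) := hcont.comp (continuous_const.add hgc)
  obtain ⟨θ, hθ⟩ := mem_range_of_exists_le_of_exists_ge (c := (1 : ℝ)) hφc
    ⟨Real.pi, by
      rw [hgpi, add_neg_cancel, h0]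
      exact zero_le_one⟩
    ⟨0, by
      rw [hg0, ← two_smul ℝ f, h.hom, hf]
      norm_num⟩
  exact ⟨g θ, hg1 θ, hθ⟩

end TH934.FT
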