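import Pool.Agent.TH934.FT.Hex

/-!
# Side to longest parallel chord: the inequality and the equality case for a `Sys`

`W` is a norm on functionals (the width of the polygon), `e i` the edges and `N i` the ratios
side / longest parallel chord. For any hexagon `f, g` with `W f = W g = W (f + g) = 1` one has
`N i ≥ (|f i| + |g i| + |f i + g i|) / 2`, and the sum of the right sides is at least `3`. If the
sum of `N` is `3`, then `W` is a hexagonal norm.
-/

namespace TH934.FT

open Finset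

/-! ## small facts -/

lemma pr_add (u u' z : ℝ × ℝ) : pr (u + u') z = pr u z + pr u' z := by
  simp only [pr, Prod.fst_add, Prod.snd_add]; ring

lemma pr_smul (c : ℝ) (u z : ℝ × ℝ) : pr (c • u) z = c * pr u z := by
  simp only [pr, Prod.smul_fst, Prod.smul_snd, smul_eq_mul]; ring

lemma pr_neg (u z : ℝ × ℝ) : pr (-u) z = - pr u z := by
  simp only [pr, Prod.fst_neg, Prod.snd_neg]; ring

/-- three numbers with sum zero -/
lemma half_sum_le {a b M : ℝ} (ha : |a| ≤ M) (hb : |b| ≤ M) (hab : |a + b| ≤ M) :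
    (|a| + |b| + |a + b|) / 2 ≤ M := by
  rcases abs_cases a with ⟨h1, h1'⟩ | ⟨h1, h1'⟩ <;> rcases abs_cases b with ⟨h2, h2'⟩ | ⟨h2, h2'⟩ <;>
    rcases abs_cases (a + b) with ⟨h3, h3'⟩ | ⟨h3, h3'⟩ <;> linarith

section
variable {ι : Type} [Fintype ι] {W : ℝ × ℝ → ℝ} {e : ι → ℝ × ℝ} {N : ι → ℝ}

lemma Sys.neg (h : Sys W e N) (u : ℝ × ℝ) : W (-u) = W u := by
  have := h.hom (-1) u
  simpa using this

lemma Sys.zero (h : Sys W e N) : W 0 = 0 := by
  have := h.hom 0 0
  simpa using this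

lemma Sys.normalize (h : Sys W e N) {u : ℝ × ℝ} (hu : u ≠ 0) : W ((1 / W u) • u) = 1 := by
  have := h.pos u hu
  rw [h.hom, abs_of_pos (by positivity)]
  field_simp

/-- the lower bound of the ratio for a hexagon -/
lemma Sys.half_le (h : Sys W e N) {f g : ℝ × ℝ} (hf : W f = 1) (hg : W g = 1) (hfg : W (f + g) = 1)
    (i : ι) : (|pr f (e i)| + |pr g (e i)| + |pr f (e i) + pr g (e i)|) / 2 ≤ N i := by
  apply half_sum_le
  · have := h.gauge i f; rwa [hf, mul_one] at this
  · have := h.gauge i g; rwa [hg, mul_one] at this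
  · have := h.gauge i (f + g); rwa [hfg, mul_one, pr_add] at this

lemma Sys.three_le_sum (h : Sys W e N) {f g : ℝ × ℝ} (hf : W f = 1) (hg : W g = 1)
    (hfg : W (f + g) = 1) :
    3 ≤ ∑ i, (|pr f (e i)| + |pr g (e i)| + |pr f (e i) + pr g (e i)|) / 2 := by
  have h1 := h.tri f
  have h2 := h.tri g
  have h3 := h.tri (f + g)
  rw [hf] at h1
  rw [hg] at h2
  rw [hfg] at h3
  simp only [pr_add] at h3
  rw [← Finset.sum_div, Finset.sum_add_distrib, Finset.sum_add_distrib]
  linarith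

end

theorem three_le {ι : Type} [Fintype ι] {W : ℝ × ℝ → ℝ} {e : ι → ℝ × ℝ} {N : ι → ℝ}
    (h : Sys W e N) : 3 ≤ ∑ i, N i := by
  have hu : ((1, 0) : ℝ × ℝ) ≠ 0 := by
    intro h0
    simpa using congrArg Prod.fst h0
  obtain ⟨g, hg, hfg⟩ := exists_hexagon h _ (h.normalize hu)
  exact (h.three_le_sum (h.normalize hu) hg hfg).trans
    (Finset.sum_le_sum fun i _ => h.half_le (h.normalize hu) hg hfg i)

section
variable {ι : Type} [Fintype ι] {W : ℝ × ℝ → ℝ} {e : ι → ℝ × ℝ} {N : ι → ℝ}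

/-- (Q1) equality of the ratios -/
lemma Sys.ratio_eq (h : Sys W e N) (h3 : ∑ i, N i = 3) {f g : ℝ × ℝ} (hf : W f = 1) (hg : W g = 1)
    (hfg : W (f + g) = 1) (i : ι) :
    N i = (|pr f (e i)| + |pr g (e i)| + |pr f (e i) + pr g (e i)|) / 2 := by
  have hle : ∀ i ∈ (Finset.univ : Finset ι),
      (|pr f (e i)| + |pr g (e i)| + |pr f (e i) + pr g (e i)|) / 2 ≤ N i :=
    fun i _ => h.half_le hf hg hfg i
  have hsum : ∑ i, (|pr f (e i)| + |pr g (e i)| + |pr f (e i) + pr g (e i)|) / 2 = ∑ i, N i := by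
    apply le_antisymm (Finset.sum_le_sum hle)
    rw [h3]; exact h.three_le_sum hf hg hfg
  exact ((Finset.sum_eq_sum_iff_of_le hle).1 hsum i (Finset.mem_univ i)).symm

/-- (Q1) the width is half the sum of the lengths of the projections, unit case -/
lemma Sys.two_eq (h : Sys W e N) (h3 : ∑ i, N i = 3) {f : ℝ × ℝ} (hf : W f = 1) :
    ∑ i, |pr f (e i)| = 2 := by
  obtain ⟨g, hg, hfg⟩ := exists_hexagon h f hf
  have h1 := h.tri f
  have h2 := h.tri g
  have h3' := h.tri (f + g)
  rw [hf] at h1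
  rw [hg] at h2
  rw [hfg] at h3'
  simp only [pr_add] at h3'
  have h4 : ∑ i, (|pr f (e i)| + |pr g (e i)| + |pr f (e i) + pr g (e i)|) / 2 = 3 := by
    rw [← h3]
    exact Finset.sum_congr rfl fun i _ => (h.ratio_eq h3 hf hg hfg i).symm
  rw [← Finset.sum_div, Finset.sum_add_distrib, Finset.sum_add_distrib] at h4
  linarith

lemma Sys.two_W (h : Sys W e N) (h3 : ∑ i, N i = 3) (u : ℝ × ℝ) :
    2 * W u = ∑ i, |pr u (e i)| := by
  by_cases hu : u = 0
  · subst hu
    rw [h.zero]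
    simp [pr]
  · have h1 := h.two_eq h3 (h.normalize hu)
    have hpos := h.pos u hu
    simp only [pr_smul, abs_mul, ← Finset.mul_sum] at h1
    rw [abs_of_pos (by positivity)] at h1
    field_simp at h1
    linarith

/-- (N1) -/
lemma Sys.exists_basis (h : Sys W e N) (h3 : ∑ i, N i = 3) (i : ι) {f : ℝ × ℝ} (hf : W f = 1)
    (hfi : pr f (e i) = 0) :
    ∃ g : ℝ × ℝ, W g = 1 ∧ W (f + g) = 1 ∧ |pr g (e i)| = N i := by
  obtain ⟨g, hg, hfg⟩ := exists_hexagon h f hf
  refine ⟨g, hg, hfg, ?_⟩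
  have := h.ratio_eq h3 hf hg hfg i
  rw [hfi] at this
  simp only [abs_zero, zero_add] at this
  linarith

/-- a vector in the kernel of `e` -/
lemma exists_ker {e : ℝ × ℝ} (he : e ≠ 0) : ∃ f : ℝ × ℝ, f ≠ 0 ∧ pr f e = 0 := by
  refine ⟨(-e.2, e.1), ?_, ?_⟩
  · intro h0
    apply he
    have h1 := congrArg Prod.fst h0
    have h2 := congrArg Prod.snd h0
    simp at h1 h2
    exact Prod.ext h2 h1
  · simp only [pr]; ring

/-- functionals vanishing at a nonzero vector are proportional -/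
lemma ker_prop {e f g : ℝ × ℝ} (hf0 : f ≠ 0) (he : e ≠ 0) (hf : pr f e = 0) (hg : pr g e = 0) :
    ∃ t : ℝ, g = t • f := by
  obtain ⟨f1, f2⟩ := f
  obtain ⟨g1, g2⟩ := g
  obtain ⟨e1, e2⟩ := e
  simp only [pr] at hf hg
  have hdet : f1 * g2 - f2 * g1 = 0 := by
    by_contra hne
    apply he
    have h1 : (f1 * g2 - f2 * g1) * e1 = 0 := by linear_combination g2 * hf - f2 * hg
    have h2 : (f1 * g2 - f2 * g1) * e2 = 0 := by linear_combination f1 * hg - g1 * hf
    rcases mul_eq_zero.1 h1 with h | h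
    · exact absurd h hne
    rcases mul_eq_zero.1 h2 with h' | h'
    · exact absurd h' hne
    simp [h, h']
  have hn : f1 * f1 + f2 * f2 ≠ 0 := by
    intro h0
    apply hf0
    have h1 : f1 = 0 := by nlinarith [mul_self_nonneg f1, mul_self_nonneg f2]
    have h2 : f2 = 0 := by nlinarith [mul_self_nonneg f1, mul_self_nonneg f2]
    simp [h1, h2]
  refine ⟨(f1 * g1 + f2 * g2) / (f1 * f1 + f2 * f2), ?_⟩
  ext
  · simp only [Prod.smul_mk, smul_eq_mul]
    rw [div_mul_eq_mul_div, eq_div_iff hn]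
    linear_combination (-f2) * hdet
  · simp only [Prod.smul_mk, smul_eq_mul]
    rw [div_mul_eq_mul_div, eq_div_iff hn]
    linear_combination (f1) * hdet

/-- the pair of a hexagon with `f i = 0`, `g i = N i > 0` -/
structure Good (W : ℝ × ℝ → ℝ) (e : ι → ℝ × ℝ) (N : ι → ℝ) (i : ι) (f g : ℝ × ℝ) : Prop where
  Wf : W f = 1
  Wg : W g = 1
  Wfg : W (f + g) = 1
  fi : pr f (e i) = 0
  gi : pr g (e i) = N i
  Npos : 0 < N i

lemma Sys.exists_good (h : Sys W e N) (h3 : ∑ i, N i = 3) (i : ι) : ∃ f g, Good W e N i f g := by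
  obtain ⟨f0, hf0, hk⟩ := exists_ker (h.e_ne i)
  have hf1 := h.normalize hf0
  set f := (1 / W f0) • f0 with hfdef
  have hfi : pr f (e i) = 0 := by rw [hfdef, pr_smul, hk, mul_zero]
  have hfne : f ≠ 0 := by
    intro h0
    rw [h0, h.zero] at hf1
    exact zero_ne_one hf1
  obtain ⟨g, hg, hfg, hgi⟩ := h.exists_basis h3 i hf1 hfi
  have hgne : pr g (e i) ≠ 0 := by
    intro h0
    obtain ⟨t, ht⟩ := ker_prop hfne (h.e_ne i) hfi h0
    have h1 : |t| = 1 := by
      have := h.hom t f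
      rw [← ht, hg, hf1, mul_one] at this
      exact this.symm
    have h2 : |1 + t| = 1 := by
      have := h.hom (1 + t) f
      rw [hf1, mul_one, add_smul, one_smul, ← ht, hfg] at this
      exact this.symm
    rcases abs_cases t with ⟨h1a, _⟩ | ⟨h1a, _⟩ <;> rcases abs_cases (1 + t) with ⟨h2a, _⟩ | ⟨h2a, _⟩ <;>
      linarith
  have hN : 0 < N i := by rw [← hgi]; exact abs_pos.2 hgne
  rcases lt_or_gt_of_ne hgne with hneg | hpos
  · refine ⟨-f, -g, ?_, ?_, ?_, ?_, ?_, hN⟩
    · rw [h.neg, hf1]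
    · rw [h.neg, hg]
    · rw [← neg_add, h.neg, hfg]
    · rw [pr_neg, hfi, neg_zero]
    · rw [pr_neg, ← hgi, abs_of_neg hneg]
  · exact ⟨f, g, hf1, hg, hfg, hfi, by rw [← hgi, abs_of_pos hpos], hN⟩

/-- (E1) -/
lemma Sys.mul_nonpos (h : Sys W e N) (h3 : ∑ i, N i = 3) {i : ι} {f g : ℝ × ℝ}
    (hG : Good W e N i f g) (j : ι) : pr f (e j) * pr g (e j) ≤ 0 := by
  classical
  by_contra hcon
  push Not at hcon
  -- signs
  obtain ⟨σ, x, y, hσ, hx, hy, hfj, hgj⟩ : ∃ σ x y : ℝ, (σ = 1 ∨ σ = -1) ∧ 0 < x ∧ 0 < y ∧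
      pr f (e j) = σ * x ∧ pr g (e j) = σ * y := by
    rcases pos_and_pos_or_neg_and_neg_of_mul_pos hcon with ⟨h1, h2⟩ | ⟨h1, h2⟩
    · exact ⟨1, _, _, Or.inl rfl, h1, h2, by ring, by ring⟩
    · exact ⟨-1, - pr f (e j), - pr g (e j), Or.inr rfl, by linarith, by linarith, by ring, by ring⟩
  have hσ2 : σ * σ = 1 := by rcases hσ with h | h <;> rw [h] <;> norm_num
  have hσa : |σ| = 1 := by rcases hσ with h | h <;> rw [h] <;> norm_num
  have hNj : N j = x + y := by
    rw [h.ratio_eq h3 hG.Wf hG.Wg hG.Wfg j, hfj, hgj, ← mul_add, abs_mul, abs_mul, abs_mul, hσa,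
      abs_of_pos hx, abs_of_pos hy, abs_of_pos (add_pos hx hy)]
    ring
  set κ : ℝ × ℝ := y • f + (-x) • g with hκdef
  have hκj : pr κ (e j) = 0 := by
    rw [hκdef, pr_add, pr_smul, pr_smul, hfj, hgj]; ring
  have hκi : pr κ (e i) = - (x * N i) := by
    rw [hκdef, pr_add, pr_smul, pr_smul, hG.fi, hG.gi]; ring
  have hκ0 : κ ≠ 0 := by
    intro h0
    rw [h0] at hκi
    have : x * N i = 0 := by
      have h0' : pr 0 (e i) = 0 := by simp [pr]
      rw [h0'] at hκi; linarith
    exact absurd this (mul_pos hx hG.Npos).ne'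
  have hc := h.pos κ hκ0
  set c := W κ with hcdef
  have hW1 : W ((1 / c) • κ) = 1 := h.normalize hκ0
  have hj0 : pr ((1 / c) • κ) (e j) = 0 := by rw [pr_smul, hκj, mul_zero]
  obtain ⟨g', hg', hfg', hgj'⟩ := h.exists_basis h3 j hW1 hj0
  -- the two points
  obtain ⟨t, ht1, ht2⟩ : ∃ t : ℝ, W (f + g + (t / c) • κ) = 1 ∧ W (f + g + ((t + 1) / c) • κ) = 1 := by
    have hfgj : pr (f + g) (e j) = σ * (x + y) := by rw [pr_add, hfj, hgj]; ring
    have key : ∀ p : ℝ × ℝ, pr p (e j) = σ * (x + y) → ∃ t : ℝ, p = f + g + (t / c) • κ := by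
      intro p hp
      have h0 : pr (p + -(f + g)) (e j) = 0 := by rw [pr_add, pr_neg, hp, hfgj]; ring
      obtain ⟨t, ht⟩ := ker_prop hκ0 (h.e_ne j) hκj h0
      refine ⟨t * c, ?_⟩
      rw [mul_div_assoc, div_self hc.ne', mul_one, ← ht]
      abel
    rcases abs_choice (pr g' (e j)) with habs | habs
    · -- pr g' = N j
      have hgv : pr g' (e j) = x + y := by rw [← habs, hgj', hNj]
      rcases hσ with hs | hs
      · obtain ⟨t, ht⟩ := key g' (by rw [hgv, hs, one_mul])
        refine ⟨t, by rw [← ht, hg'], ?_⟩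
        have : f + g + ((t + 1) / c) • κ = (1 / c) • κ + g' := by
          rw [ht, add_div, add_smul]; abel
        rw [this, hfg']
      · obtain ⟨t, ht⟩ := key (-g') (by rw [pr_neg, hgv, hs]; ring)
        refine ⟨t - 1, ?_, ?_⟩
        · have : f + g + ((t - 1) / c) • κ = -((1 / c) • κ + g') := by
            rw [neg_add, ht, sub_div, sub_smul]; abel
          rw [this, h.neg, hfg']
        · rw [sub_add_cancel, ← ht, h.neg, hg']
    · have hgv : pr g' (e j) = -(x + y) := by rw [← hNj, ← hgj', habs, neg_neg]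
      rcases hσ with hs | hs
      · obtain ⟨t, ht⟩ := key (-g') (by rw [pr_neg, hgv, hs]; ring)
        refine ⟨t - 1, ?_, ?_⟩
        · have : f + g + ((t - 1) / c) • κ = -((1 / c) • κ + g') := by
            rw [neg_add, ht, sub_div, sub_smul]; abel
          rw [this, h.neg, hfg']
        · rw [sub_add_cancel, ← ht, h.neg, hg']
      · obtain ⟨t, ht⟩ := key g' (by rw [hgv, hs]; ring)
        refine ⟨t, by rw [← ht, hg'], ?_⟩
        have : f + g + ((t + 1) / c) • κ = (1 / c) • κ + g' := by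
          rw [ht, add_div, add_smul]; abel
        rw [this, hfg']
  -- t ≥ 0
  have ht0 : 0 ≤ t := by
    have h1 := h.gauge i (f + g + (t / c) • κ)
    rw [ht1, mul_one, pr_add, pr_add, pr_smul, hG.fi, hG.gi, hκi] at h1
    have h2 := (abs_le.1 h1).2
    have h3' : 0 ≤ t / c * (x * N i) := by linarith
    have h4 : 0 ≤ t / c := by
      by_contra hlt
      push Not at hlt
      have := mul_neg_of_neg_of_pos hlt (mul_pos hx hG.Npos)
      linarith
    have h5 : t = t / c * c := by field_simp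
    rw [h5]; positivity
  -- convexity: W (f + g + κ / c) ≤ 1
  have hP1 : W (f + g + (1 / c) • κ) ≤ 1 := by
    have hs : 0 < t + 1 := by linarith
    have hdec : f + g + (1 / c) • κ
        = (t / (t + 1)) • (f + g) + (1 / (t + 1)) • (f + g + ((t + 1) / c) • κ) := by
      rw [smul_add (1 / (t + 1)) (f + g), ← add_assoc, ← add_smul, smul_smul]
      have e1 : t / (t + 1) + 1 / (t + 1) = 1 := by field_simp
      have e2 : 1 / (t + 1) * ((t + 1) / c) = 1 / c := by field_simp
      rw [e1, e2, one_smul]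
    rw [hdec]
    refine (h.sub _ _).trans ?_
    rw [h.hom, h.hom, hG.Wfg, ht2, mul_one, mul_one, abs_of_nonneg (by positivity),
      abs_of_pos (by positivity)]
    apply le_of_eq
    field_simp
  -- x ≤ c
  have hxc : x ≤ c := by
    have h1 := h.gauge i κ
    rw [hκi, abs_neg, abs_of_pos (mul_pos hx hG.Npos)] at h1
    have h2 : x * N i ≤ c * N i := by rw [mul_comm c]; exact h1
    exact le_of_mul_le_mul_right h2 hG.Npos
  -- x + y ≤ c
  have hxyc : x + y ≤ c := by
    have hdec : (1 + y / c) • f = (f + g + (1 / c) • κ) + (-(1 - x / c)) • g := by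
      rw [hκdef, smul_add, smul_smul, smul_smul]
      have e1 : (1 / c) * y = y / c := by ring
      have e2 : (1 / c) * (-x) = -(x / c) := by ring
      rw [e1, e2]
      module
    have h1 : W ((1 + y / c) • f) ≤ 1 + (1 - x / c) := by
      rw [hdec]
      refine (h.sub _ _).trans ?_
      rw [h.hom (-(1 - x / c)), hG.Wg, mul_one, abs_neg]
      have : 0 ≤ 1 - x / c := by
        rw [sub_nonneg, div_le_one hc]; exact hxc
      rw [abs_of_nonneg this]
      linarith
    rw [h.hom, hG.Wf, mul_one, abs_of_pos (by positivity)] at h1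
    have h2 : y / c + x / c ≤ 1 := by linarith
    rw [← add_div, div_le_one hc] at h2
    linarith
  -- the contradiction
  have hsum := h.two_W h3 κ
  have hsf := h.two_W h3 f
  have hsg := h.two_W h3 g
  rw [hG.Wf] at hsf
  rw [hG.Wg] at hsg
  rw [← Finset.add_sum_erase _ _ (Finset.mem_univ j)] at hsum hsf hsg
  rw [hκj, abs_zero, zero_add] at hsum
  rw [hfj, abs_mul, hσa, one_mul, abs_of_pos hx] at hsf
  rw [hgj, abs_mul, hσa, one_mul, abs_of_pos hy] at hsg
  have hle : ∑ k ∈ Finset.univ.erase j, |pr κ (e k)|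
      ≤ y * ∑ k ∈ Finset.univ.erase j, |pr f (e k)| + x * ∑ k ∈ Finset.univ.erase j, |pr g (e k)| := by
    rw [Finset.mul_sum, Finset.mul_sum, ← Finset.sum_add_distrib]
    apply Finset.sum_le_sum
    intro k _
    rw [hκdef, pr_add, pr_smul, pr_smul]
    refine (abs_add_le _ _).trans ?_
    rw [abs_mul, abs_mul, abs_neg, abs_of_pos hx, abs_of_pos hy]
  have e1 : ∑ k ∈ Finset.univ.erase j, |pr f (e k)| = 2 - x := by linarith
  have e2 : ∑ k ∈ Finset.univ.erase j, |pr g (e k)| = 2 - y := by linarith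
  rw [e1, e2] at hle
  nlinarith [mul_pos hx hy]

lemma Good.flip (h : Sys W e N) {i : ι} {f g : ℝ × ℝ} (hG : Good W e N i f g) :
    Good W e N i (-f) (f + g) := by
  refine ⟨?_, hG.Wfg, ?_, ?_, ?_, hG.Npos⟩
  · rw [h.neg, hG.Wf]
  · rw [neg_add_cancel_left, hG.Wg]
  · rw [pr_neg, hG.fi, neg_zero]
  · rw [pr_add, hG.fi, hG.gi, zero_add]

lemma Sys.second (h : Sys W e N) (h3 : ∑ i, N i = 3) {i : ι} {f g : ℝ × ℝ}
    (hG : Good W e N i f g) (j : ι) : 0 ≤ pr g (e j) * (pr f (e j) + pr g (e j)) := by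
  have h1 := h.gauge i (g + (f + g))
  have h2 : 2 ≤ W (g + (f + g)) := by
    rw [pr_add, pr_add, hG.fi, hG.gi, zero_add] at h1
    have h4 := (le_abs_self (N i + N i)).trans h1
    have h5 : 2 * N i ≤ W (g + (f + g)) * N i := by linarith
    exact le_of_mul_le_mul_right h5 hG.Npos
  have hs := h.two_W h3 (g + (f + g))
  have hsg := h.two_W h3 g
  have hsfg := h.two_W h3 (f + g)
  rw [hG.Wg] at hsg
  rw [hG.Wfg] at hsfg
  have hle : ∀ k ∈ (Finset.univ : Finset ι),
      |pr (g + (f + g)) (e k)| ≤ |pr g (e k)| + |pr (f + g) (e k)| := by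
    intro k _
    rw [pr_add]; exact abs_add_le _ _
  have hsum : ∑ k, |pr (g + (f + g)) (e k)| = ∑ k, (|pr g (e k)| + |pr (f + g) (e k)|) := by
    apply le_antisymm (Finset.sum_le_sum hle)
    rw [Finset.sum_add_distrib]; linarith
  have hj := (Finset.sum_eq_sum_iff_of_le hle).1 hsum j (Finset.mem_univ j)
  rw [pr_add, pr_add] at hj
  set a := pr f (e j)
  set b := pr g (e j)
  have : |b * (a + b)| = b * (a + b) := by
    have hsq := congrArg (fun z => z * z) hj
    simp only [abs_mul_abs_self] at hsq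
    have h6 : |b| * |b| = b * b := abs_mul_abs_self b
    have h7 : |a + b| * |a + b| = (a + b) * (a + b) := abs_mul_abs_self _
    rw [abs_mul]
    nlinarith
  rw [← this]; exact abs_nonneg _

lemma abs_split {a b : ℝ} (h : a = 0 ∨ b = 0 ∨ a + b = 0) (α β : ℝ) :
    |α * a + β * b| = |α| * ((|a| + |a + b| - |b|) / 2) + |β| * ((|b| + |a + b| - |a|) / 2)
      + |α - β| * ((|a| + |b| - |a + b|) / 2) := by
  rcases h with h | h | h
  · subst h; simp [abs_mul]
  · subst h; simp [abs_mul]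
  · have hb : b = -a := by linarith
    subst hb
    have : α * a + β * -a = (α - β) * a := by ring
    rw [this, abs_mul]
    simp

end

theorem formula_of_eq {ι : Type} [Fintype ι] {W : ℝ × ℝ → ℝ} {e : ι → ℝ × ℝ} {N : ι → ℝ}
    (h : Sys W e N) (h3 : ∑ i, N i = 3) (i : ι) :
    ∃ f g : ℝ × ℝ, f.1 * g.2 - f.2 * g.1 ≠ 0 ∧
      ∀ α β : ℝ, W (α • f + β • g) = (|α| + |β| + |α - β|) / 2 := by
  obtain ⟨f, g, hG⟩ := h.exists_good h3 i
  refine ⟨f, g, ?_, ?_⟩
  · intro hdet
    have hfne : f ≠ 0 := by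
      intro h0
      have := hG.Wf
      rw [h0, h.zero] at this
      exact zero_ne_one this
    have h1 := hG.fi
    have h2 := hG.gi
    have hN := hG.Npos
    simp only [pr] at h1 h2
    -- (f ∥ g) : f.1 * (g·e) = g.1 * (f·e) + ...
    have e1 : f.1 * N i = 0 := by
      rw [← h2]
      linear_combination g.1 * h1 + (e i).2 * hdet
    have e2 : f.2 * N i = 0 := by
      rw [← h2]
      linear_combination g.2 * h1 - (e i).1 * hdet
    apply hfne
    have e1' : f.1 = 0 := (mul_eq_zero.1 e1).resolve_right hN.ne'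
    have e2' : f.2 = 0 := (mul_eq_zero.1 e2).resolve_right hN.ne'
    exact Prod.ext e1' e2'
  · intro α β
    have hcase : ∀ j, pr f (e j) = 0 ∨ pr g (e j) = 0 ∨ pr f (e j) + pr g (e j) = 0 := by
      intro j
      have h1 := h.mul_nonpos h3 hG j
      have h2 := h.mul_nonpos h3 (hG.flip h) j
      have h4 := h.second h3 hG j
      rw [pr_neg, pr_add] at h2
      set a := pr f (e j)
      set b := pr g (e j)
      by_contra hcon
      push Not at hcon
      obtain ⟨ha, hb, hab⟩ := hcon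
      have h5 : a * b < 0 := lt_of_le_of_ne h1 (mul_ne_zero ha hb)
      have h6 : 0 ≤ a * (a + b) := by linarith
      have h7 := mul_nonneg h6 h4
      have h8 : 0 < (a + b) * (a + b) := mul_self_pos.2 hab
      nlinarith [mul_pos (neg_pos.2 h5) h8]
    have hs := h.two_W h3 (α • f + β • g)
    have hsf := h.two_W h3 f
    have hsg := h.two_W h3 g
    have hsfg := h.two_W h3 (f + g)
    rw [hG.Wf] at hsf
    rw [hG.Wg] at hsg
    rw [hG.Wfg] at hsfg
    simp only [pr_add, pr_smul] at hs hsfg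
    have hs' : ∑ j, |α * pr f (e j) + β * pr g (e j)| = |α| + |β| + |α - β| := by
      rw [Finset.sum_congr rfl fun j _ => abs_split (hcase j) α β]
      rw [Finset.sum_add_distrib, Finset.sum_add_distrib, ← Finset.mul_sum, ← Finset.mul_sum,
        ← Finset.mul_sum, ← Finset.sum_div, ← Finset.sum_div, ← Finset.sum_div,
        Finset.sum_sub_distrib, Finset.sum_sub_distrib, Finset.sum_sub_distrib,
        Finset.sum_add_distrib, Finset.sum_add_distrib, Finset.sum_add_distrib, ← hsf, ← hsg, ← hsfg]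
      ring
    linarith

end TH934.FT
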